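import Mathlib

/-!
# MP_ab166a_nt: the zonal wavenumber bound in the Rossby resonance set fails

The wavevector `(153720320, 52)` forms a resonant triad with `(98422695, 129549398)`, and
`153720320` is more than `12` times `√3 * 52 ^ 4`.

How the triad was found: writing `z = a + ib`, `w = x + iy` and `w / z = α / γ` with coprime Gaussian
integers, the resonance condition says that `z` is a real multiple of
`i (γ ^ 2 - α (γ - α)) / (α (γ - α))`. The triad belongs to `γ = 56 + 20 i`, `α = 19 + 60 i`.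
-/

set_option autoImplicit false

namespace Pool.Agent.Results.MP_ab166a_nt.SecondException

/-- The wavevector set `Λ`: all `(a, b)` for which the quintic equation has an integer solution
`(x, y)` with `a x (a - x) ≠ 0`. -/
def Lam : Set (ℤ × ℤ) :=
  {p | ∃ x y : ℤ,
    x * (p.1 ^ 2 + p.2 ^ 2) * (p.1 ^ 2 + p.2 ^ 2 - 2 * p.1 * x - 2 * p.2 * y) =
      p.1 * (x ^ 2 + y ^ 2) * (x ^ 2 + y ^ 2 - 2 * p.1 * x - 2 * p.2 * y) ∧
    p.1 * x * (p.1 - x) ≠ 0}

theorem mem : ((153720320, 52) : ℤ × ℤ) ∈ Lam :=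
  ⟨98422695, 129549398, by norm_num, by norm_num⟩

theorem large : 12 * (√3 * (52 : ℝ) ^ 4) ≤ 153720320 := by
  have h : √3 ≤ 1.7321 := by
    rw [Real.sqrt_le_left (by norm_num)]
    norm_num
  nlinarith [h]

/-- `(153720320, 52)` is in `Λ`, its first entry is more than `12` times the conjectured bound, and
so the assertion of Q1 is false. -/
theorem result :
    ((153720320, 52) : ℤ × ℤ) ∈ Lam ∧
    12 * (√3 * (52 : ℝ) ^ 4) ≤ 153720320 ∧
    ¬ ∀ a b : ℤ, (a, b) ∈ Lam → 0 < a → 0 < b →
        (a, b) = ((800, 4) : ℤ × ℤ) ∨ (a : ℝ) < √3 * (b : ℝ) ^ 4 := by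
  refine ⟨mem, large, fun h => ?_⟩
  rcases h 153720320 52 mem (by norm_num) (by norm_num) with h1 | h1
  · simp at h1
  · have h2 := large
    have h3 : (0 : ℝ) ≤ √3 * (52 : ℝ) ^ 4 := by positivity
    norm_num at h1 h2
    nlinarith [Real.sqrt_nonneg (3 : ℝ)]

end Pool.Agent.Results.MP_ab166a_nt.SecondException
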